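import Pool.Agent.V8H32.SymP.Base
import Pool.Agent.W189.TP.Land

/-! Symmetric power L-functions on the line: the Ramanujan conjecture from the real points. -/

set_option autoImplicit false

namespace Pool.Agent.V8H32.SymP

open Complex Filter Topology ComplexConjugate
open Pool.Agent.H341R2 Pool.Agent.W540.BE Pool.Agent.V8H32.Coh Pool.Agent.W189.TP

/-! ### characters -/

theorem chi_rec {w : ℂ} (hw : w ≠ 0) (k : ℕ) :
    chi (k + 2) w = (w + w⁻¹) * chi (k + 1) w - chi k w := by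
  have h1 : w * chi (k + 1) w = chi (k + 2) w - w ^ (-((k : ℤ) + 2)) := by
    unfold chi
    rw [Finset.sum_range_succ (n := k + 1 + 1), Finset.mul_sum]
    have : ((k + 2 : ℕ) : ℤ) - 2 * ((k + 1 + 1 : ℕ) : ℤ) = -((k : ℤ) + 2) := by push_cast; ring
    rw [this, add_sub_cancel_right]
    refine Finset.sum_congr rfl fun i _ => ?_
    rw [← zpow_one_add₀ hw]
    congr 1
    push_cast
    ring
  have h2 : w⁻¹ * chi (k + 1) w = chi k w + w ^ (-((k : ℤ) + 2)) := by
    unfold chi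
    rw [Finset.sum_range_succ (n := k + 1), mul_add, Finset.mul_sum]
    congr 1
    · refine Finset.sum_congr rfl fun i _ => ?_
      rw [← zpow_neg_one, ← zpow_add₀ hw]
      congr 1
      push_cast
      ring
    · rw [← zpow_neg_one, ← zpow_add₀ hw]
      congr 1
      push_cast
      ring
  rw [add_mul, h1, h2]
  ring

theorem chi_one' {w : ℂ} : chi 1 w = w + w⁻¹ := by
  rw [chi_one, zpow_one, zpow_neg_one]

theorem chi_cg_aux {w : ℂ} (hw : w ≠ 0) (k : ℕ) :
    chi (2 * (k + 1)) w = chi (k + 1) w ^ 2 - chi k w ^ 2 ∧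
    chi (2 * (k + 1) + 1) w = chi (k + 1) w * (chi (k + 2) w - chi k w) := by
  induction k with
  | zero =>
    have h2 := chi_rec hw 0
    have h3 := chi_rec hw 1
    simp only [zero_add] at h2
    norm_num at h2 h3
    constructor
    · norm_num
      rw [h2, chi_one', chi_zero]
      ring
    · norm_num
      rw [h3, h2, chi_one', chi_zero]
      ring
  | succ k ih =>
    obtain ⟨h1, h2⟩ := ih
    have e1 : 2 * (k + 1 + 1) = 2 * (k + 1) + 2 := by ring
    have r1 := chi_rec hw (2 * (k + 1))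
    have r2 := chi_rec hw (2 * (k + 1) + 1)
    have r3 := chi_rec hw k
    have r4 := chi_rec hw (k + 1)
    have e3 : k + 1 + 2 = k + 3 := by ring
    have e4 : k + 1 + 1 = k + 2 := by ring
    rw [e3, e4] at r4
    rw [e1]
    have a1 : chi (2 * (k + 1) + 2) w = chi (k + 1 + 1) w ^ 2 - chi (k + 1) w ^ 2 := by
      rw [r1, h1, h2, e4, r3]
      ring
    refine ⟨a1, ?_⟩
    have e5 : 2 * (k + 1) + 2 + 1 = 2 * (k + 1) + 1 + 2 := by ring
    rw [e5, r2, show 2 * (k + 1) + 1 + 1 = 2 * (k + 1) + 2 by ring, a1, h2, e4, e3, r4, r3]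
    ring

theorem chi_sq {w : ℂ} (hw : w ≠ 0) (k : ℕ) :
    chi k w ^ 2 = ∑ j ∈ Finset.range (k + 1), chi (2 * j) w := by
  induction k with
  | zero => simp [chi_zero]
  | succ k ih =>
    rw [Finset.sum_range_succ, ← ih, (chi_cg_aux hw k).1]
    ring

theorem chi_inv (k : ℕ) (w : ℂ) : chi k w⁻¹ = chi k w := by
  unfold chi
  rw [← Finset.sum_range_reflect]
  refine Finset.sum_congr rfl fun i hi => ?_
  rw [Finset.mem_range] at hi
  rw [inv_zpow, ← zpow_neg]
  congr 1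
  have : ((k + 1 - 1 - i : ℕ) : ℤ) = (k : ℤ) - i := by omega
  rw [this]
  ring

theorem chi_conj (k : ℕ) (w : ℂ) : conj (chi k w) = chi k (conj w) := by
  unfold chi
  rw [map_sum]
  refine Finset.sum_congr rfl fun i _ => ?_
  rw [map_zpow₀]

/-- the parameter is unitary or real -/
theorem unit_or_real {w : ℂ} (hw : w ≠ 0) (h : ∃ a : ℝ, w + w⁻¹ = a) : ‖w‖ = 1 ∨ w.im = 0 := by
  obtain ⟨a, ha⟩ := h
  have h1 := congrArg Complex.im ha
  rw [Complex.add_im, Complex.inv_im, Complex.ofReal_im] at h1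
  by_cases him : w.im = 0
  · exact Or.inr him
  · left
    have h2 : Complex.normSq w ≠ 0 := by rwa [Ne, Complex.normSq_eq_zero]
    field_simp at h1
    have h3 : Complex.normSq w = 1 := by
      have h4 : w.im * (Complex.normSq w - 1) = 0 := by linarith
      rcases mul_eq_zero.1 h4 with h5 | h5
      · exact absurd h5 him
      · linarith
    rw [Complex.normSq_eq_norm_sq] at h3
    have h4 : (0 : ℝ) ≤ ‖w‖ := norm_nonneg _
    nlinarith

theorem chi_real {w : ℂ} (hw : w ≠ 0) (h : ∃ a : ℝ, w + w⁻¹ = a) (k m : ℕ) :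
    (((chi k (w ^ m)).re : ℝ) : ℂ) = chi k (w ^ m) := by
  rw [← Complex.conj_eq_iff_re, chi_conj, map_pow]
  rcases unit_or_real hw h with h1 | h1
  · rw [← inv_eq_conj h1, inv_pow, chi_inv]
  · have : conj w = w := Complex.conj_eq_iff_im.2 h1
    rw [this]

theorem chi_big {w : ℂ} (hw : w.im = 0) (hw0 : w ≠ 0) (k : ℕ) : ‖w‖ ^ k ≤ ‖chi k w‖ := by
  have h1 : chi k w = w ^ k * (∑ i ∈ Finset.range (k + 1), ((w.re ^ 2)⁻¹ ^ i : ℝ) : ℝ) := by
    have h2 : w = (w.re : ℂ) := by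
      rw [← Complex.re_add_im w, hw]
      simp
    unfold chi
    push_cast
    rw [Finset.mul_sum]
    refine Finset.sum_congr rfl fun i _ => ?_
    rw [zpow_sub₀ hw0, ← h2, inv_pow, ← pow_mul, zpow_natCast, div_eq_mul_inv]
    congr 2
  rw [h1, norm_mul, norm_pow, Complex.norm_real, Real.norm_eq_abs]
  refine le_mul_of_one_le_right (by positivity) ?_
  have h3 : (1 : ℝ) ≤ ∑ i ∈ Finset.range (k + 1), ((w.re ^ 2)⁻¹ ^ i : ℝ) := by
    rw [Finset.sum_range_succ']
    have : 0 ≤ ∑ i ∈ Finset.range k, ((w.re ^ 2)⁻¹ ^ (i + 1) : ℝ) :=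
      Finset.sum_nonneg fun i _ => by positivity
    simpa using this
  exact h3.trans (le_abs_self _)

theorem norm_chi_le {w : ℂ} {B : ℝ} (hB : 1 ≤ B) (h1 : ‖w‖ ≤ B) (h2 : ‖w⁻¹‖ ≤ B)
    (k : ℕ) : ‖chi k w‖ ≤ (k + 1) * B ^ k := by
  unfold chi
  refine (norm_sum_le _ _).trans ?_
  have h3 : ∀ i ∈ Finset.range (k + 1), ‖w ^ ((k : ℤ) - 2 * i)‖ ≤ B ^ k := by
    intro i hi
    rw [Finset.mem_range] at hi
    rcases le_total (0 : ℤ) ((k : ℤ) - 2 * i) with h | h
    · obtain ⟨n, hn⟩ := Int.eq_ofNat_of_zero_le h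
      rw [hn, zpow_natCast, norm_pow]
      calc ‖w‖ ^ n ≤ B ^ n := pow_le_pow_left₀ (norm_nonneg _) h1 _
        _ ≤ B ^ k := pow_le_pow_right₀ hB (by omega)
    · obtain ⟨n, hn⟩ := Int.eq_ofNat_of_zero_le (neg_nonneg.2 h)
      have h4 : (k : ℤ) - 2 * i = -(n : ℤ) := by
        have : -((k : ℤ) - 2 * i) = (n : ℤ) := hn
        omega
      rw [h4, zpow_neg, ← inv_zpow, zpow_natCast, norm_pow]
      calc ‖w⁻¹‖ ^ n ≤ B ^ n := pow_le_pow_left₀ (norm_nonneg _) h2 _
        _ ≤ B ^ k := pow_le_pow_right₀ hB (by omega)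
  refine (Finset.sum_le_sum h3).trans ?_
  rw [Finset.sum_const, Finset.card_range, nsmul_eq_mul]
  push_cast
  exact le_rfl

/-! ### the Dirichlet series -/

/-- the coefficients of `log L_S(s, Sym^k)` -/
noncomputable def co (S : Finset ℕ) (α : ℕ → ℂ) (k : ℕ) (x : Nat.Primes × ℕ) : ℝ :=
  if (x.1 : ℕ) ∈ S then 0 else (chi k (α x.1 ^ (x.2 + 1))).re / (x.2 + 1)

/-- the exponents of `log L_S(s, Sym^k)` -/
noncomputable def LL (x : Nat.Primes × ℕ) : ℝ := (x.2 + 1) * Real.log (x.1 : ℕ)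

theorem LL_nonneg (x : Nat.Primes × ℕ) : 0 ≤ LL x := by
  have : (1 : ℝ) ≤ (x.1 : ℕ) := by exact_mod_cast x.1.2.one_le
  exact mul_nonneg (by positivity) (Real.log_nonneg this)

theorem exp_LL (t : ℝ) (x : Nat.Primes × ℕ) :
    Real.exp (-(t * LL x)) = (((x.1 : ℕ) : ℝ) ^ (-t)) ^ (x.2 + 1) := by
  have h : (0 : ℝ) < (x.1 : ℕ) := by exact_mod_cast x.1.2.pos
  rw [← Real.rpow_natCast, ← Real.rpow_mul h.le, Real.rpow_def_of_pos h]
  congr 1
  unfold LL
  push_cast
  ring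

theorem cexp_LL (s : ℂ) (x : Nat.Primes × ℕ) :
    cexp (-(s * LL x)) = (((x.1 : ℕ) : ℂ) ^ (-s)) ^ (x.2 + 1) := by
  have h : ((x.1 : ℕ) : ℂ) ≠ 0 := by exact_mod_cast x.1.2.ne_zero
  rw [Complex.cpow_def_of_ne_zero h, ← Complex.exp_nat_mul]
  congr 1
  have h2 : ((Real.log ((x.1 : ℕ) : ℝ) : ℝ) : ℂ) = Complex.log ((x.1 : ℕ) : ℂ) :=
    Complex.natCast_log
  unfold LL
  rw [Complex.ofReal_mul, h2]
  push_cast
  ring

theorem summable_pm {a : ℝ} (ha : 1 < a) :
    Summable fun x : Nat.Primes × ℕ => (((x.1 : ℕ) : ℝ) ^ (-a)) ^ (x.2 + 1) := by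
  have h1 : Summable fun p : Nat.Primes => ((p : ℕ) : ℝ) ^ (-a) :=
    summable_prime_rpow (r := -a) (by linarith)
  have h2 : Summable fun m : ℕ => ((2 : ℝ) ^ (-a)) ^ m := by
    refine summable_geometric_of_lt_one (by positivity) ?_
    exact Real.rpow_lt_one_of_one_lt_of_neg (by norm_num) (by linarith)
  refine Summable.of_nonneg_of_le (fun x => by positivity) (fun x => ?_)
    (h1.mul_of_nonneg h2 (fun p => by positivity) fun m => by positivity)
  rw [pow_succ, mul_comm]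
  refine mul_le_mul_of_nonneg_left ?_ (by positivity)
  refine pow_le_pow_left₀ (by positivity) ?_ _
  have : (2 : ℝ) ≤ (x.1 : ℕ) := by exact_mod_cast x.1.2.two_le
  exact Real.rpow_le_rpow_of_nonpos (by norm_num) this (by linarith)

variable {S : Finset ℕ} {α : ℕ → ℂ} {θ : ℝ}

theorem abs_chi_le (h : SatakeParameters S α θ) (k m : ℕ) (p : Nat.Primes) (hp : (p : ℕ) ∉ S) :
    ‖chi k (α p ^ (m + 1))‖ ≤ (k + 1) * (((p : ℕ) : ℝ) ^ (k * θ)) ^ (m + 1) := by
  have hp1 : (1 : ℝ) ≤ (p : ℕ) := by exact_mod_cast p.2.one_le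
  have h1 := norm_chi_le (w := α p ^ (m + 1)) (B := (((p : ℕ) : ℝ) ^ θ) ^ (m + 1))
    (one_le_pow₀ (Real.one_le_rpow hp1 h.nonneg))
    (by
      rw [norm_pow]
      exact pow_le_pow_left₀ (norm_nonneg _) (h.le p p.2 hp) _)
    (by
      rw [← inv_pow, norm_pow]
      exact pow_le_pow_left₀ (norm_nonneg _) (h.le' p p.2 hp) _) k
  refine h1.trans (le_of_eq ?_)
  congr 1
  rw [← pow_mul, mul_comm (m + 1) k, pow_mul]
  congr 1
  rw [← Real.rpow_natCast, ← Real.rpow_mul (by positivity)]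
  congr 1
  ring

theorem summable_co (h : SatakeParameters S α θ) (k : ℕ) {σ : ℝ} (hσ : k * θ + 1 < σ) :
    Summable fun x : Nat.Primes × ℕ => |co S α k x| * Real.exp (-(σ * LL x)) := by
  refine Summable.of_nonneg_of_le (fun x => by positivity) (fun x => ?_)
    ((summable_pm (a := σ - k * θ) (by linarith)).mul_left ((k : ℝ) + 1))
  rw [exp_LL]
  unfold co
  have hp0 : (0 : ℝ) < (x.1 : ℕ) := by exact_mod_cast x.1.2.pos
  split_ifs with hS
  · rw [abs_zero, zero_mul]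
    positivity
  · rw [abs_div, abs_of_nonneg (by positivity : (0 : ℝ) ≤ (x.2 : ℝ) + 1)]
    have h1 : |(chi k (α x.1 ^ (x.2 + 1))).re| / ((x.2 : ℝ) + 1) ≤
        (k + 1) * (((x.1 : ℕ) : ℝ) ^ (k * θ)) ^ (x.2 + 1) := by
      refine (div_le_self (abs_nonneg _) (by
        have : (0 : ℝ) ≤ x.2 := by positivity
        linarith)).trans ?_
      exact (Complex.abs_re_le_norm _).trans (abs_chi_le h k x.2 x.1 hS)
    refine (mul_le_mul_of_nonneg_right h1 (by positivity)).trans (le_of_eq ?_)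
    rw [mul_assoc, ← mul_pow, ← Real.rpow_add hp0]
    congr 3
    ring

theorem norm_zp (h : SatakeParameters S α θ) {k : ℕ} {s : ℂ} (hs : k * θ < s.re) (p : Nat.Primes)
    (hS : (p : ℕ) ∉ S) {i : ℕ} (hi : i ∈ Finset.range (k + 1)) :
    ‖α p ^ ((k : ℤ) - 2 * i) * ((p : ℕ) : ℂ) ^ (-s)‖ < 1 := by
  have hp0 : (0 : ℝ) < (p : ℕ) := by exact_mod_cast p.2.pos
  have hp1 : (1 : ℝ) < (p : ℕ) := by exact_mod_cast p.2.one_lt
  have h1 : ‖α p ^ ((k : ℤ) - 2 * i)‖ ≤ ((p : ℕ) : ℝ) ^ (k * θ) := by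
    rw [Finset.mem_range] at hi
    have hk : (((p : ℕ) : ℝ) ^ θ) ^ k = ((p : ℕ) : ℝ) ^ (k * θ) := by
      rw [← Real.rpow_natCast, ← Real.rpow_mul (by positivity)]
      congr 1
      ring
    have hB : (1 : ℝ) ≤ ((p : ℕ) : ℝ) ^ θ := Real.one_le_rpow hp1.le h.nonneg
    rw [← hk]
    rcases le_total (0 : ℤ) ((k : ℤ) - 2 * i) with h' | h'
    · obtain ⟨n, hn⟩ := Int.eq_ofNat_of_zero_le h'
      rw [hn, zpow_natCast, norm_pow]
      calc ‖α p‖ ^ n ≤ (((p : ℕ) : ℝ) ^ θ) ^ n :=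
            pow_le_pow_left₀ (norm_nonneg _) (h.le p p.2 hS) _
        _ ≤ (((p : ℕ) : ℝ) ^ θ) ^ k := pow_le_pow_right₀ hB (by omega)
    · obtain ⟨n, hn⟩ := Int.eq_ofNat_of_zero_le (neg_nonneg.2 h')
      have h4 : (k : ℤ) - 2 * i = -(n : ℤ) := by
        have : -((k : ℤ) - 2 * i) = (n : ℤ) := hn
        omega
      rw [h4, zpow_neg, ← inv_zpow, zpow_natCast, norm_pow]
      calc ‖(α p)⁻¹‖ ^ n ≤ (((p : ℕ) : ℝ) ^ θ) ^ n :=
            pow_le_pow_left₀ (norm_nonneg _) (h.le' p p.2 hS) _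
        _ ≤ (((p : ℕ) : ℝ) ^ θ) ^ k := pow_le_pow_right₀ hB (by omega)
  rw [norm_mul, Complex.norm_natCast_cpow_of_pos p.2.pos]
  calc ‖α p ^ ((k : ℤ) - 2 * i)‖ * ((p : ℕ) : ℝ) ^ (-s).re
      ≤ ((p : ℕ) : ℝ) ^ (k * θ) * ((p : ℕ) : ℝ) ^ (-s).re :=
        mul_le_mul_of_nonneg_right h1 (by positivity)
    _ = ((p : ℕ) : ℝ) ^ (k * θ - s.re) := by
        rw [← Real.rpow_add hp0]
        congr 1
    _ < 1 := Real.rpow_lt_one_of_one_lt_of_neg hp1 (by linarith)

/-- the logarithm of the L-function -/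
theorem exp_DS (h : SatakeParameters S α θ) (k : ℕ) {s : ℂ} (hs : k * θ + 1 < s.re) :
    cexp (DS (co S α k) LL s) = symL S α k s := by
  have hsum : Summable fun x : Nat.Primes × ℕ => (co S α k x : ℂ) * cexp (-(s * LL x)) :=
    summ_cplx LL_nonneg le_rfl (summable_co h k hs)
  have hfib : ∀ p : Nat.Primes, HasSum (fun m : ℕ => (co S α k (p, m) : ℂ) * cexp (-(s * LL (p, m))))
      (if (p : ℕ) ∈ S then 0 else ∑ i ∈ Finset.range (k + 1),
        -Complex.log (1 - α p ^ ((k : ℤ) - 2 * i) * ((p : ℕ) : ℂ) ^ (-s))) := by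
    intro p
    by_cases hS : (p : ℕ) ∈ S
    · rw [if_pos hS]
      unfold co
      simp only [if_pos hS]
      simp
    · rw [if_neg hS]
      have h2 : HasSum (fun m : ℕ => ∑ i ∈ Finset.range (k + 1),
          (α p ^ ((k : ℤ) - 2 * i) * ((p : ℕ) : ℂ) ^ (-s)) ^ (m + 1) / ((m + 1 : ℕ) : ℂ))
          (∑ i ∈ Finset.range (k + 1),
            -Complex.log (1 - α p ^ ((k : ℤ) - 2 * i) * ((p : ℕ) : ℂ) ^ (-s))) := by
        refine hasSum_sum fun i hi => ?_
        have h3 := Complex.hasSum_taylorSeries_neg_log (norm_zp h (by linarith : k * θ < s.re) p hS hi)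
        rw [← hasSum_nat_add_iff' 1] at h3
        simp only [Finset.range_one, Finset.sum_singleton, pow_zero, Nat.cast_zero, div_zero,
          sub_zero] at h3
        exact h3
      have h4 : (fun m : ℕ => (co S α k (p, m) : ℂ) * cexp (-(s * LL (p, m)))) =
          fun m : ℕ => ∑ i ∈ Finset.range (k + 1),
          (α p ^ ((k : ℤ) - 2 * i) * ((p : ℕ) : ℂ) ^ (-s)) ^ (m + 1) / ((m + 1 : ℕ) : ℂ) := by
        funext m
        rw [cexp_LL]
        unfold co
        simp only [if_neg hS]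
        rw [Complex.ofReal_div, chi_real (h.ne p p.2 hS) (h.real p p.2 hS)]
        unfold chi
        rw [div_mul_eq_mul_div, Finset.sum_mul, Finset.sum_div]
        refine Finset.sum_congr rfl fun i _ => ?_
        rw [mul_pow]
        push_cast
        congr 2
        rw [← zpow_natCast, ← zpow_mul, ← zpow_natCast, ← zpow_mul]
        congr 1
        ring
      rw [h4]
      exact h2
  have h3 := (hsum.hasSum.prod_fiberwise hfib).cexp
  rw [show (∑' x : Nat.Primes × ℕ, (co S α k x : ℂ) * cexp (-(s * LL x))) =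
    DS (co S α k) LL s from rfl] at h3
  rw [← h3.tprod_eq]
  unfold symL
  refine tprod_congr fun p => ?_
  simp only [Function.comp]
  split_ifs with hS
  · simp
  · rw [Complex.exp_sum]
    refine Finset.prod_congr rfl fun i hi => ?_
    rw [Complex.exp_neg, Complex.exp_log]
    intro h5
    have h6 := norm_zp h (by linarith : k * θ < s.re) p hS hi
    rw [← sub_eq_zero.1 h5, norm_one] at h6
    exact lt_irrefl _ h6

/-! ### The Ramanujan conjecture -/

theorem sum_co (h : SatakeParameters S α θ) (k : ℕ) (x : Nat.Primes × ℕ) :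
    ∑ j ∈ Finset.range (k + 1), co S α (2 * j) x =
      if (x.1 : ℕ) ∈ S then 0 else (chi k (α x.1 ^ (x.2 + 1))).re ^ 2 / (x.2 + 1) := by
  unfold co
  split_ifs with hS
  · simp
  · rw [← Finset.sum_div]
    congr 1
    have h1 := chi_sq (pow_ne_zero (x.2 + 1) (h.ne x.1 x.1.2 hS)) k
    rw [← chi_real (h.ne x.1 x.1.2 hS) (h.real x.1 x.1.2 hS), ← Complex.ofReal_pow] at h1
    have h2 := congrArg Complex.re h1
    rw [Complex.ofReal_re, Complex.re_sum] at h2
    exact h2.symm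

theorem summable_sq (h : SatakeParameters S α θ) (hm : ∀ k : ℕ, 2 ≤ k → Even k → RealPoleFree S α k) (k : ℕ)
    {t : ℝ} (ht : 1 < t) : Summable fun x : Nat.Primes × ℕ =>
      (if (x.1 : ℕ) ∈ S then 0 else (chi k (α x.1 ^ (x.2 + 1))).re ^ 2 / (x.2 + 1)) *
        Real.exp (-(t * LL x)) := by
  have hm' : ∀ j : ℕ, ∃ (U V : ℂ → ℂ) (σ : ℝ), DifferentiableOn ℂ U {s | 1 < s.re} ∧
      DifferentiableOn ℂ V {s | 1 < s.re} ∧ (∀ t : ℝ, 1 < t → V t ≠ 0) ∧
      ∀ s : ℂ, σ < s.re → symL S α (2 * j) s * V s = U s := by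
    intro j
    rcases Nat.eq_zero_or_pos j with rfl | hj
    · refine ⟨symL S α (2 * 0), fun _ => 1, 1, ?_, by fun_prop, fun _ _ => one_ne_zero,
        fun s _ => by rw [mul_one]⟩
      have h1 : DifferentiableOn ℂ (DS (co S α (2 * 0)) LL) {s | 1 < s.re} := by
        refine DS_diff LL_nonneg fun t ht => summable_co h _ ?_
        simpa using ht
      refine h1.cexp.congr fun s hs => ?_
      rw [exp_DS h]
      have : 1 < s.re := hs
      simpa using this
    · exact hm (2 * j) (by omega) ⟨j, by ring⟩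
  choose U V σ hU hV hV0 hUV using hm'
  have hθ := h.nonneg
  -- a large abscissa
  obtain ⟨A, hA1, hA2, hA3⟩ : ∃ A : ℝ, 1 < A ∧ (∀ j ∈ Finset.range (k + 1), σ j < A) ∧
      (2 * k : ℝ) * θ + 1 < A := by
    refine ⟨∑ j ∈ Finset.range (k + 1), |σ j| + (2 * k : ℝ) * θ + 2, ?_, ?_, ?_⟩
    · have : 0 ≤ ∑ j ∈ Finset.range (k + 1), |σ j| := Finset.sum_nonneg fun j _ => abs_nonneg _
      have h2 : (0 : ℝ) ≤ (2 * k : ℝ) * θ := by positivity
      linarith
    · intro j hj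
      have h1 : |σ j| ≤ ∑ j ∈ Finset.range (k + 1), |σ j| :=
        Finset.single_le_sum (f := fun j => |σ j|) (fun j _ => abs_nonneg _) hj
      have h2 : (0 : ℝ) ≤ (2 * k : ℝ) * θ := by positivity
      linarith [le_abs_self (σ j)]
    · have : 0 ≤ ∑ j ∈ Finset.range (k + 1), |σ j| := Finset.sum_nonneg fun j _ => abs_nonneg _
      linarith
  have hA0 : (0 : ℝ) < A := by linarith
  have hkj : ∀ j ∈ Finset.range (k + 1), ((2 * j : ℕ) : ℝ) * θ + 1 < A := by
    intro j hj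
    rw [Finset.mem_range] at hj
    have h1 : ((2 * j : ℕ) : ℝ) * θ ≤ (2 * k : ℝ) * θ := by
      refine mul_le_mul_of_nonneg_right ?_ hθ
      have : (j : ℝ) ≤ k := by exact_mod_cast (by omega : j ≤ k)
      push_cast
      linarith
    linarith
  set d : Nat.Primes × ℕ → ℝ := fun x =>
    if (x.1 : ℕ) ∈ S then 0 else (chi k (α x.1 ^ (x.2 + 1))).re ^ 2 / (x.2 + 1) with hd
  have hd0 : ∀ x, 0 ≤ d x := by
    intro x
    simp only [hd]
    split_ifs
    · exact le_rfl
    · positivity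
  have hdsum : ∀ x, d x = ∑ j ∈ Finset.range (k + 1), co S α (2 * j) x := fun x =>
    (sum_co h k x).symm
  set L' : Nat.Primes × ℕ → ℝ := fun x => A * LL x with hL'
  have hL'0 : ∀ x, 0 ≤ L' x := fun x => mul_nonneg hA0.le (LL_nonneg x)
  have hresc : ∀ (u : ℝ) (x : Nat.Primes × ℕ), u * L' x = (A * u) * LL x := fun u x => by
    simp only [hL']
    ring
  have hsummd : ∀ u : ℝ, A < u → Summable fun x => |d x| * Real.exp (-(u * LL x)) := by
    intro u hu
    have h1 : Summable fun x => ∑ j ∈ Finset.range (k + 1),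
        |co S α (2 * j) x| * Real.exp (-(u * LL x)) :=
      summable_sum fun j hj => summable_co h (2 * j) ((hkj j hj).trans hu)
    refine Summable.of_nonneg_of_le (fun x => by positivity) (fun x => ?_) h1
    rw [← Finset.sum_mul]
    refine mul_le_mul_of_nonneg_right ?_ (Real.exp_pos _).le
    rw [hdsum]
    exact Finset.abs_sum_le_sum_abs _ _
  have hopen1 : {s : ℂ | A⁻¹ < s.re} ⊆ (fun s => (A : ℂ) * s) ⁻¹' {s : ℂ | 1 < s.re} := by
    intro s hs
    have hs' : A⁻¹ < s.re := hs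
    show 1 < ((A : ℂ) * s).re
    rw [Complex.re_ofReal_mul]
    calc (1 : ℝ) = A * A⁻¹ := (mul_inv_cancel₀ hA0.ne').symm
      _ < A * s.re := mul_lt_mul_of_pos_left hs' hA0
  have hdiffA : ∀ F : ℂ → ℂ, DifferentiableOn ℂ F {s | 1 < s.re} →
      DifferentiableOn ℂ (fun s => F (A * s)) {s : ℂ | A⁻¹ < s.re} := by
    intro F hF
    exact hF.comp (by fun_prop) hopen1
  have key := extend (d := d) (L := L') hL'0 (s₁ := A⁻¹)
    (fun u hu => by
      refine (hsummd (A * u) ?_).congr fun x => by rw [hresc]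
      calc A = A * 1 := (mul_one A).symm
        _ < A * u := mul_lt_mul_of_pos_left hu hA0)
    (fun u hu => by
      refine summable_zero.congr fun x => ?_
      rw [min_eq_right (hd0 x), abs_zero, zero_mul])
    (U := fun s => ∏ j ∈ Finset.range (k + 1), U j (A * s))
    (V := fun s => ∏ j ∈ Finset.range (k + 1), V j (A * s))
    (DifferentiableOn.fun_finsetProd fun j _ => hdiffA _ (hU j))
    (DifferentiableOn.fun_finsetProd fun j _ => hdiffA _ (hV j))
    (fun u hu => by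
      refine Finset.prod_ne_zero_iff.2 fun j _ => ?_
      have : (A : ℂ) * (u : ℂ) = ((A * u : ℝ) : ℂ) := by push_cast; rfl
      rw [this]
      refine hV0 j _ ?_
      calc (1 : ℝ) = A * A⁻¹ := (mul_inv_cancel₀ hA0.ne').symm
        _ < A * u := mul_lt_mul_of_pos_left hu hA0)
    (fun s hs => by
      have hAs : A < ((A : ℂ) * s).re := by
        rw [Complex.re_ofReal_mul]
        calc A = A * 1 := (mul_one A).symm
          _ < A * s.re := mul_lt_mul_of_pos_left hs hA0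
      have h1 : DS d L' s = ∑ j ∈ Finset.range (k + 1), DS (co S α (2 * j)) LL (A * s) := by
        unfold DS
        rw [← Summable.tsum_finsetSum fun j hj => summ_cplx LL_nonneg le_rfl
          (summable_co h (2 * j) ((hkj j hj).trans hAs))]
        refine tsum_congr fun x => ?_
        rw [hdsum, ← Finset.sum_mul]
        push_cast
        congr 2
        simp only [hL']
        push_cast
        ring
      rw [h1, Complex.exp_sum, ← Finset.prod_mul_distrib]
      refine Finset.prod_congr rfl fun j hj => ?_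
      rw [exp_DS h (2 * j) ((hkj j hj).trans hAs)]
      exact hUV j _ ((hA2 j hj).trans hAs))
  have h5 := key (t / A) (by
    rw [inv_eq_one_div]
    exact div_lt_div_of_pos_right ht hA0)
  refine h5.congr fun x => ?_
  rw [abs_of_nonneg (hd0 x), hresc, mul_div_cancel₀ _ hA0.ne']

/-- **The Ramanujan conjecture** at all unramified primes. -/
theorem ramanujan (h : SatakeParameters S α θ) (hm : ∀ k : ℕ, 2 ≤ k → Even k → RealPoleFree S α k) (p : ℕ)
    (hp : p.Prime) (hpS : p ∉ S) : ‖α p‖ = 1 := by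
  obtain ⟨q, rfl⟩ : ∃ q : Nat.Primes, (q : ℕ) = p := ⟨⟨p, hp⟩, rfl⟩
  rcases unit_or_real (h.ne q hp hpS) (h.real q hp hpS) with h1 | him
  · exact h1
  -- bound for the powers
  have key : ∀ w : ℂ, w ≠ 0 → w.im = 0 → (∀ k m : ℕ, ‖chi k (α q ^ (m + 1))‖ = ‖chi k (w ^ (m + 1))‖) →
      ‖w‖ ≤ 1 := by
    intro w hw0 hwim hw
    by_contra hcon
    push Not at hcon
    set p : ℕ := (q : ℕ) with hpq
    obtain ⟨k, hk⟩ := pow_unbounded_of_one_lt ((p : ℝ) ^ (2 : ℝ)) hcon
    have hs := summable_sq h hm k (t := 2) (by norm_num)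
    have hs2 : Summable fun m : ℕ => (chi k (α p ^ (m + 1))).re ^ 2 / ((m : ℝ) + 1) *
        ((p : ℝ) ^ (-(2 : ℝ))) ^ (m + 1) := by
      have h3 := hs.comp_injective (i := fun m : ℕ => (q, m))
        (fun a b hab => congrArg Prod.snd hab)
      refine h3.congr fun m => ?_
      simp only [Function.comp]
      rw [if_neg hpS, exp_LL]
    have h4 := hs2.tendsto_atTop_zero
    have hp0 : (0 : ℝ) < p := by exact_mod_cast hp.pos
    -- lower bound
    have h5 : ∀ m : ℕ, (1 : ℝ) / ((m : ℝ) + 1) * (‖w‖ ^ k) ^ (m + 1) ≤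
        (chi k (α p ^ (m + 1))).re ^ 2 / ((m : ℝ) + 1) * ((p : ℝ) ^ (-(2 : ℝ))) ^ (m + 1) := by
      intro m
      have h6 : (chi k (α p ^ (m + 1))).re ^ 2 = ‖chi k (α p ^ (m + 1))‖ ^ 2 := by
        conv_rhs => rw [← chi_real (h.ne p hp hpS) (h.real p hp hpS), Complex.norm_real,
          Real.norm_eq_abs, sq_abs]
      have hwm : (w ^ (m + 1)).im = 0 := by
        have : w = (w.re : ℂ) := by
          rw [← Complex.re_add_im w, hwim]
          simp
        rw [this, ← Complex.ofReal_pow, Complex.ofReal_im]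
      have h7 := chi_big hwm (pow_ne_zero _ hw0) k
      rw [h6, hw, div_mul_eq_mul_div, div_mul_eq_mul_div, one_mul]
      refine div_le_div_of_nonneg_right ?_ (by positivity)
      have h8 : (‖w‖ ^ k) ^ (m + 1) * (‖w‖ ^ k) ^ (m + 1) ≤ ‖chi k (w ^ (m + 1))‖ ^ 2 := by
        rw [← sq]
        refine pow_le_pow_left₀ (by positivity) ?_ 2
        refine le_trans (le_of_eq ?_) h7
        rw [norm_pow, ← pow_mul, ← pow_mul, mul_comm]
      have h9 : ((p : ℝ) ^ (2 : ℝ)) ^ (m + 1) ≤ (‖w‖ ^ k) ^ (m + 1) :=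
        pow_le_pow_left₀ (by positivity) hk.le _
      have h10 : ((p : ℝ) ^ (2 : ℝ)) ^ (m + 1) * ((p : ℝ) ^ (-(2 : ℝ))) ^ (m + 1) = 1 := by
        rw [← mul_pow, ← Real.rpow_add hp0]
        norm_num
      calc (‖w‖ ^ k) ^ (m + 1) = (‖w‖ ^ k) ^ (m + 1) *
            (((p : ℝ) ^ (2 : ℝ)) ^ (m + 1) * ((p : ℝ) ^ (-(2 : ℝ))) ^ (m + 1)) := by
              rw [h10, mul_one]
        _ ≤ (‖w‖ ^ k) ^ (m + 1) * ((‖w‖ ^ k) ^ (m + 1) * ((p : ℝ) ^ (-(2 : ℝ))) ^ (m + 1)) := by
            refine mul_le_mul_of_nonneg_left ?_ (by positivity)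
            exact mul_le_mul_of_nonneg_right h9 (by positivity)
        _ = (‖w‖ ^ k) ^ (m + 1) * (‖w‖ ^ k) ^ (m + 1) * ((p : ℝ) ^ (-(2 : ℝ))) ^ (m + 1) := by
            ring
        _ ≤ ‖chi k (w ^ (m + 1))‖ ^ 2 * ((p : ℝ) ^ (-(2 : ℝ))) ^ (m + 1) :=
            mul_le_mul_of_nonneg_right h8 (by positivity)
    have h6 : Tendsto (fun m : ℕ => (1 : ℝ) / ((m : ℝ) + 1) * (‖w‖ ^ k) ^ (m + 1)) atTop (𝓝 0) :=
      squeeze_zero (fun m => by positivity) h5 h4
    -- but the powers dominate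
    have hx : (1 : ℝ) < ‖w‖ ^ k := by
      refine lt_of_le_of_lt ?_ hk
      have : (1 : ℝ) ≤ p := by exact_mod_cast hp.one_le
      exact Real.one_le_rpow this (by norm_num)
    have h7 : ∀ m : ℕ, ‖w‖ ^ k - 1 ≤ (1 : ℝ) / ((m : ℝ) + 1) * (‖w‖ ^ k) ^ (m + 1) := by
      intro m
      have h8 := one_add_mul_sub_le_pow (a := ‖w‖ ^ k) (by linarith) (m + 1)
      rw [div_mul_eq_mul_div, one_mul, le_div_iff₀ (by positivity)]
      push_cast at h8
      nlinarith
    have h8 := ge_of_tendsto' h6 h7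
    linarith
  have hα0 := h.ne q hp hpS
  have k1 := key (α q) hα0 him fun k m => rfl
  have k2 := key (α q)⁻¹ (inv_ne_zero hα0) (by rw [Complex.inv_im, him]; simp) fun k m => by
    rw [inv_pow, chi_inv]
  rw [norm_inv] at k2
  have h0 : 0 < ‖α q‖ := norm_pos_iff.2 hα0
  exact le_antisymm k1 ((inv_le_one₀ h0).1 k2)

/-- the parameters are unitary: the L-functions are analytic for `Re s > 1` -/
theorem sat_zero (h : SatakeParameters S α θ) (hu : ∀ p : ℕ, p.Prime → p ∉ S → ‖α p‖ = 1) : SatakeParameters S α 0 where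
  ne := h.ne
  real := h.real
  nonneg := le_rfl
  le p hp hS := by rw [hu p hp hS, Real.rpow_zero]
  le' p hp hS := by rw [norm_inv, hu p hp hS, Real.rpow_zero, inv_one]

theorem symL_diff (h : SatakeParameters S α 0) (k : ℕ) : DifferentiableOn ℂ (symL S α k) {s | 1 < s.re} := by
  have h1 : DifferentiableOn ℂ (DS (co S α k) LL) {s | 1 < s.re} := by
    refine DS_diff LL_nonneg fun t ht => summable_co h _ ?_
    simpa using ht
  refine h1.cexp.congr fun s hs => ?_
  rw [exp_DS h]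
  have : 1 < s.re := hs
  simpa using this

/-- identity theorem -/
theorem symL_eq (h : SatakeParameters S α 0) (k : ℕ) {Λ : ℂ → ℂ} (hΛ : DifferentiableOn ℂ Λ {s | 1 < s.re})
    {σ : ℝ} (he : ∀ s : ℂ, σ < s.re → Λ s = symL S α k s) (s : ℂ) (hs : 1 < s.re) :
    Λ s = symL S α k s := by
  have hop : IsOpen {s : ℂ | 1 < s.re} := isOpen_lt continuous_const Complex.continuous_re
  have h1 := hΛ.analyticOnNhd hop
  have h2 := (symL_diff h k).analyticOnNhd hop
  set z : ℂ := ((max σ 1 + 1 : ℝ) : ℂ) with hz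
  have hz1 : σ < z.re := by
    rw [hz, Complex.ofReal_re]
    have := le_max_left σ 1
    linarith
  have hz2 : 1 < z.re := by
    rw [hz, Complex.ofReal_re]
    have := le_max_right σ 1
    linarith
  refine h1.eqOn_of_preconnected_of_eventuallyEq h2 (halfplane_preconn 1) hz2 ?_ hs
  filter_upwards [(isOpen_lt continuous_const Complex.continuous_re).mem_nhds hz1] with s hs
  exact he s hs

end Pool.Agent.V8H32.SymP
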