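import Pool.Agent.V8H32.SymP.Base
import Pool.Agent.W353.L1.Trig

/-! The Sato-Tate law from the mean values of the characters. -/

set_option autoImplicit false

namespace Pool.Agent.V8H32.SymP

open Complex Filter Topology ComplexConjugate MeasureTheory
open Pool.Agent.H341R2 Pool.Agent.W540.BE Pool.Agent.V8H32.Coh

theorem int_cos (j : ℤ) : ∫ θ in (0 : ℝ)..Real.pi, Real.cos (j * θ) =
    if j = 0 then Real.pi else 0 := by
  split_ifs with h
  · subst h
    simp
  · have hj : (j : ℝ) ≠ 0 := by exact_mod_cast h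
    rw [intervalIntegral.integral_comp_mul_left (fun x => Real.cos x) hj, integral_cos]
    simp [Real.sin_int_mul_pi]

/-- the mean value with respect to the Sato-Tate measure -/
noncomputable def STm (f : ℝ → ℝ) : ℝ :=
  2 / Real.pi * ∫ θ in (0 : ℝ)..Real.pi, f (2 * Real.cos θ) * Real.sin θ ^ 2

theorem int_cos_sin (m : ℤ) :
    2 / Real.pi * ∫ θ in (0 : ℝ)..Real.pi, Real.cos (m * θ) * Real.sin θ ^ 2 =
      if m.natAbs = 0 then 1 else if m.natAbs = 2 then -(1 / 2) else 0 := by
  have h1 : ∀ θ : ℝ, Real.cos (m * θ) * Real.sin θ ^ 2 =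
      1 / 2 * Real.cos (m * θ) - (1 / 4 * Real.cos ((m + 2 : ℤ) * θ) +
        1 / 4 * Real.cos ((m - 2 : ℤ) * θ)) := by
    intro θ
    have h2 : Real.cos ((m + 2 : ℤ) * θ) = Real.cos (m * θ) * Real.cos (2 * θ) -
        Real.sin (m * θ) * Real.sin (2 * θ) := by
      rw [← Real.cos_add]
      congr 1
      push_cast
      ring
    have h3 : Real.cos ((m - 2 : ℤ) * θ) = Real.cos (m * θ) * Real.cos (2 * θ) +
        Real.sin (m * θ) * Real.sin (2 * θ) := by
      rw [← Real.cos_sub]
      congr 1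
      push_cast
      ring
    rw [h2, h3, Real.cos_two_mul, Real.sin_sq]
    ring
  have hi : ∀ j : ℤ, ∀ c : ℝ, IntervalIntegrable (fun θ : ℝ => c * Real.cos (j * θ)) volume 0
      Real.pi := by
    intro j c
    apply Continuous.intervalIntegrable
    fun_prop
  rw [intervalIntegral.integral_congr (g := fun θ => 1 / 2 * Real.cos (m * θ) -
    (1 / 4 * Real.cos ((m + 2 : ℤ) * θ) + 1 / 4 * Real.cos ((m - 2 : ℤ) * θ)))
    fun θ _ => h1 θ]
  rw [intervalIntegral.integral_sub (hi m _) ((hi _ _).add (hi _ _)),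
    intervalIntegral.integral_add (hi _ _) (hi _ _), intervalIntegral.integral_const_mul,
    intervalIntegral.integral_const_mul, intervalIntegral.integral_const_mul, int_cos, int_cos,
    int_cos]
  have hpi := Real.pi_pos
  by_cases h0 : m = 0
  · subst h0
    norm_num
    field_simp
  by_cases h2 : m = 2
  · subst h2
    norm_num
    field_simp
    norm_num
  by_cases h3 : m = -2
  · subst h3
    norm_num
    field_simp
    norm_num
  rw [if_neg h0, if_neg (by omega : ¬ m + 2 = 0), if_neg (by omega : ¬ m - 2 = 0),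
    if_neg (by omega : ¬ m.natAbs = 0), if_neg (by omega : ¬ m.natAbs = 2)]
  simp

theorem two_re_pow (w : ℂ) (hw : ‖w‖ = 1) (n : ℕ) :
    (2 * w.re) ^ n = ∑ k ∈ Finset.range (n + 1), (n.choose k : ℝ) *
      (w ^ (2 * (k : ℤ) - n)).re := by
  rw [mul_pow, Pool.Agent.W353.L1.cos_pow_expand w hw, Complex.re_sum, Finset.mul_sum]
  refine Finset.sum_congr rfl fun k _ => ?_
  rw [Complex.re_ofReal_mul]
  unfold Pool.Agent.W353.L1.cc
  field_simp

theorem STm_pow (n : ℕ) : STm (fun x => x ^ n) = ∑ k ∈ Finset.range (n + 1), (n.choose k : ℝ) *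
    (if (2 * (k : ℤ) - n).natAbs = 0 then 1 else
      if (2 * (k : ℤ) - n).natAbs = 2 then -(1 / 2) else 0) := by
  unfold STm
  have h1 : ∀ θ : ℝ, (2 * Real.cos θ) ^ n * Real.sin θ ^ 2 = ∑ k ∈ Finset.range (n + 1),
      (n.choose k : ℝ) * (Real.cos ((2 * (k : ℤ) - n : ℤ) * θ) * Real.sin θ ^ 2) := by
    intro θ
    have h2 := two_re_pow (cexp (θ * I)) (Complex.norm_exp_ofReal_mul_I θ) n
    rw [Complex.exp_ofReal_mul_I_re] at h2
    rw [h2, Finset.sum_mul]
    refine Finset.sum_congr rfl fun k _ => ?_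
    rw [← Complex.exp_int_mul, mul_assoc]
    congr 2
    have h3 : ((2 * (k : ℤ) - n : ℤ) : ℂ) * (θ * I) =
        (((2 * (k : ℤ) - n : ℤ) * θ : ℝ) : ℂ) * I := by
      push_cast
      ring
    rw [h3, Complex.exp_ofReal_mul_I_re]
  rw [intervalIntegral.integral_congr (g := fun θ => ∑ k ∈ Finset.range (n + 1),
      (n.choose k : ℝ) * (Real.cos ((2 * (k : ℤ) - n : ℤ) * θ) * Real.sin θ ^ 2))
    fun θ _ => h1 θ]
  rw [intervalIntegral.integral_finsetSum fun k _ => by
    apply Continuous.intervalIntegrable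
    fun_prop, Finset.mul_sum]
  refine Finset.sum_congr rfl fun k _ => ?_
  rw [intervalIntegral.integral_const_mul, ← int_cos_sin]
  ring

theorem STm_add {f g : ℝ → ℝ} (hf : Continuous f) (hg : Continuous g) :
    STm (fun x => f x + g x) = STm f + STm g := by
  unfold STm
  rw [← mul_add, ← intervalIntegral.integral_add]
  · congr 1
    refine intervalIntegral.integral_congr fun θ _ => ?_
    ring
  · apply Continuous.intervalIntegrable
    fun_prop
  · apply Continuous.intervalIntegrable
    fun_prop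

theorem STm_const_mul (c : ℝ) (f : ℝ → ℝ) : STm (fun x => c * f x) = c * STm f := by
  unfold STm
  have h : (∫ θ in (0 : ℝ)..Real.pi, c * f (2 * Real.cos θ) * Real.sin θ ^ 2) =
      c * ∫ θ in (0 : ℝ)..Real.pi, f (2 * Real.cos θ) * Real.sin θ ^ 2 := by
    rw [← intervalIntegral.integral_const_mul]
    congr 1
    funext θ
    ring
  rw [h]
  ring

theorem STm_close {f g : ℝ → ℝ} (hf : Continuous f) (hg : Continuous g) {η : ℝ}
    (h : ∀ x ∈ Set.Icc (-2 : ℝ) 2, |f x - g x| ≤ η) : |STm f - STm g| ≤ 2 * η := by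
  unfold STm
  have hpi := Real.pi_pos
  have h1 : (∫ θ in (0 : ℝ)..Real.pi, f (2 * Real.cos θ) * Real.sin θ ^ 2) -
      (∫ θ in (0 : ℝ)..Real.pi, g (2 * Real.cos θ) * Real.sin θ ^ 2) =
      ∫ θ in (0 : ℝ)..Real.pi, (f (2 * Real.cos θ) - g (2 * Real.cos θ)) * Real.sin θ ^ 2 := by
    rw [← intervalIntegral.integral_sub]
    · refine intervalIntegral.integral_congr fun θ _ => ?_
      ring
    · apply Continuous.intervalIntegrable
      fun_prop
    · apply Continuous.intervalIntegrable
      fun_prop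
  rw [← mul_sub, h1, abs_mul, abs_of_pos (by positivity)]
  have h2 : ‖∫ θ in (0 : ℝ)..Real.pi, (f (2 * Real.cos θ) - g (2 * Real.cos θ)) *
      Real.sin θ ^ 2‖ ≤ η * |Real.pi - 0| := by
    refine intervalIntegral.norm_integral_le_of_norm_le_const fun θ _ => ?_
    rw [norm_mul, Real.norm_eq_abs, Real.norm_eq_abs, abs_of_nonneg (sq_nonneg (Real.sin θ))]
    have h3 := h (2 * Real.cos θ) ⟨by linarith [Real.neg_one_le_cos θ],
      by linarith [Real.cos_le_one θ]⟩
    exact (mul_le_of_le_one_right (abs_nonneg _) (Real.sin_sq_le_one θ)).trans h3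
  rw [Real.norm_eq_abs, sub_zero, abs_of_pos hpi] at h2
  calc 2 / Real.pi * |∫ θ in (0 : ℝ)..Real.pi, (f (2 * Real.cos θ) - g (2 * Real.cos θ)) *
      Real.sin θ ^ 2| ≤ 2 / Real.pi * (η * Real.pi) :=
        mul_le_mul_of_nonneg_left h2 (by positivity)
    _ = 2 * η := by field_simp

variable {S : Finset ℕ} {α : ℕ → ℂ}

theorem st_poly (hα : ∀ p : ℕ, p.Prime → p ∉ S → ‖α p‖ = 1)
    (h : ∀ k : ℕ, Lim cN (ff S α k 0) (if k = 0 then 2 else if k = 2 then -1 else 0))
    (Q : Polynomial ℝ) : Lim cN (fun p => Q.eval (2 * (ww S α p).re)) (STm fun x => Q.eval x) := by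
  induction Q using Polynomial.induction_on' with
  | add Q R hQ hR =>
    have h1 := hQ.add hcN hR
    have h2 : STm (fun x => (Q + R).eval x) = STm (fun x => Q.eval x) + STm fun x => R.eval x := by
      simp only [Polynomial.eval_add]
      exact STm_add Q.continuous R.continuous
    rw [h2]
    exact h1.congr fun p => by rw [Polynomial.eval_add]
  | monomial n a =>
    have h2 : STm (fun x => (Polynomial.monomial n a).eval x) = a * STm fun x => x ^ n := by
      simp only [Polynomial.eval_monomial]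
      exact STm_const_mul a _
    rw [h2]
    have h3 : Lim cN (fun p => (2 * (ww S α p).re) ^ n) (STm fun x => x ^ n) := by
      rw [STm_pow]
      have h4 : Lim cN (fun p => ∑ k ∈ Finset.range (n + 1), (n.choose k : ℝ) *
          (1 / 2 * ff S α ((2 * (k : ℤ) - n).natAbs : ℕ) 0 p))
          (∑ k ∈ Finset.range (n + 1), (n.choose k : ℝ) *
            (if (2 * (k : ℤ) - n).natAbs = 0 then 1 else
              if (2 * (k : ℤ) - n).natAbs = 2 then -(1 / 2) else 0)) := by
        refine Lim.sum hcN _ fun k _ => Lim.const_mul ?_ _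
        have h5 := (h (2 * (k : ℤ) - n).natAbs).const_mul (1 / 2)
        convert! h5 using 1
        split_ifs <;> norm_num
      refine h4.congr fun p => ?_
      rw [two_re_pow _ (norm_ww hα p)]
      refine Finset.sum_congr rfl fun k _ => ?_
      congr 1
      unfold ff
      rw [pz_zero, Complex.one_re, mul_one]
      have h6 : (ww S α p ^ (((2 * (k : ℤ) - n).natAbs : ℕ) : ℤ)).re =
          (ww S α p ^ (2 * (k : ℤ) - n)).re := by
        rcases Int.natAbs_eq (2 * (k : ℤ) - n) with h7 | h7
        · rw [← h7]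
        · conv_rhs => rw [h7]
          rw [zpow_neg_conj (norm_ww hα p), Complex.conj_re]
      rw [h6]
      ring
    refine (h3.const_mul a).congr fun p => ?_
    rw [Polynomial.eval_monomial]

theorem satoTate (hα : ∀ p : ℕ, p.Prime → p ∉ S → ‖α p‖ = 1)
    (h : ∀ k : ℕ, Lim cN (ff S α k 0) (if k = 0 then 2 else if k = 2 then -1 else 0)) :
    SatoTate S α := by
  classical
  intro f hf
  have h1 : Lim cN (fun p => f (2 * (ww S α p).re)) (STm f) := by
    refine Lim.approx hcN lim_one fun η hη => ?_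
    obtain ⟨Q, hQ⟩ := exists_polynomial_near_of_continuousOn (-2) 2 f hf.continuousOn (η / 2)
      (by positivity)
    refine ⟨_, _, st_poly hα h Q, fun p => ?_, ?_⟩
    · have hre : |(ww S α p).re| ≤ 1 :=
        (Complex.abs_re_le_norm _).trans (norm_ww hα p).le
      rw [abs_le] at hre
      have := hQ (2 * (ww S α p).re) ⟨by linarith, by linarith⟩
      rw [abs_sub_comm]
      linarith
    · have := STm_close hf Q.continuous (η := η / 2) fun x hx => by
        rw [abs_sub_comm]
        exact (hQ x hx).le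
      linarith
  have hS : {p : Nat.Primes | (p : ℕ) ∈ S}.Finite :=
    Set.Finite.preimage (Subtype.val_injective.injOn) S.finite_toSet
  have h2 := h1.of_fin hcN (g := fun p : Nat.Primes =>
    if (p : ℕ) ∈ S then (0 : ℝ) else f (α p + (α p)⁻¹).re) hS.toFinset fun p hp => by
      have hp' : (p : ℕ) ∉ S := by simpa using hp
      rw [if_neg hp', inv_eq_conj (hα p p.2 hp')]
      unfold ww
      rw [if_neg hp']
      congr 1
      simp
      ring
  exact h2.lim

end Pool.Agent.V8H32.SymP
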