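import Pool.Agent.V8H32.SymP.Defs
import Pool.Agent.V8H32.Coh.Mean
import Pool.Agent.V8H32.Coh.Dich

/-! Symmetric power L-functions on the line: mean values. -/

set_option autoImplicit false

namespace Pool.Agent.V8H32.SymP

open Complex Filter Topology ComplexConjugate Polynomial
open Pool.Agent.H341R2 Pool.Agent.W540.BE Pool.Agent.V8H32.Coh

/-- the norm of a prime number -/
def cN : Nat.Primes → ℕ := fun p => (p : ℕ)

theorem hcN : NormSys cN where
  two_le p := p.2.two_le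
  summable _ hr := summable_prime_rpow hr

theorem EP_cN_one (ε : ℝ) : EP cN ε (fun _ => 1) = lam ε := by
  unfold EP lam cN
  exact tsum_congr fun p => one_mul _

theorem lim_one : Lim cN (fun _ => 1) 1 := by
  refine ⟨⟨1, fun _ => by simp⟩, ?_⟩
  refine tendsto_const_nhds.congr' ?_
  filter_upwards [lam_tendsto.eventually_gt_atTop 0] with ε hε
  rw [EP_cN_one, div_self hε.ne']

theorem mean_eq (f : ℕ → ℝ) (ε : ℝ) : mean f ε = EP cN ε (fun p => f p) / lam ε := rfl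

theorem lim_cos {τ : ℝ} (hτ : τ ≠ 0) :
    Lim cN (fun p => ((((p : ℕ) : ℂ) ^ (-(τ * I)) : ℂ)).re) 0 := by
  have hb : ∀ p : Nat.Primes, |((((p : ℕ) : ℂ) ^ (-(τ * I)) : ℂ)).re| ≤ 1 := by
    intro p
    refine (Complex.abs_re_le_norm _).trans ?_
    rw [norm_prime_cpow]
    simp
  refine ⟨⟨1, hb⟩, ?_⟩
  obtain ⟨C, hC⟩ := primeSum_bounded (1 : DirichletCharacter ℂ 1) τ (Or.inr hτ)
  have h2 : Tendsto (fun ε : ℝ => C / lam ε) (𝓝[>] 0) (𝓝 0) :=
    tendsto_const_nhds.div_atTop lam_tendsto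
  refine squeeze_zero_norm' ?_ h2
  filter_upwards [hC, self_mem_nhdsWithin, lam_tendsto.eventually_gt_atTop 0] with ε h3 hε hl
  have hε' : (0 : ℝ) < ε := hε
  rw [Real.norm_eq_abs, abs_div, abs_of_pos hl]
  refine div_le_div_of_nonneg_right ?_ hl.le
  refine le_of_eq_of_le ?_ h3
  congr 1
  have hterm : ∀ p : Nat.Primes, (1 : DirichletCharacter ℂ 1) p *
      ((p : ℕ) : ℂ) ^ (-(1 + ε + τ * I : ℂ)) =
      ((p : ℕ) : ℂ) ^ (-(τ * I)) * (((p : ℝ) ^ (-(1 + ε)) : ℝ) : ℂ) := by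
    intro p
    have hp : ((p : ℕ) : ℂ) ≠ 0 := by exact_mod_cast p.2.ne_zero
    rw [MulChar.one_apply (isUnit_of_subsingleton _), one_mul, Complex.ofReal_cpow (by positivity)]
    push_cast
    rw [← Complex.cpow_add _ _ hp]
    congr 1
    ring
  have hs : Summable fun p : Nat.Primes => (1 : DirichletCharacter ℂ 1) p *
      ((p : ℕ) : ℂ) ^ (-(1 + ε + τ * I : ℂ)) := by
    refine Summable.of_norm_bounded (summable_prime_rpow (r := -(1 + ε)) (by linarith)) fun p => ?_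
    rw [hterm, norm_mul, norm_prime_cpow, Complex.norm_real, Real.norm_eq_abs,
      abs_of_nonneg (by positivity)]
    simp
  rw [Complex.re_tsum hs, EP]
  refine tsum_congr fun p => ?_
  rw [hterm, Complex.re_mul_ofReal]
  rfl

/-- the character of `Sym^k` -/
noncomputable def chi (k : ℕ) (w : ℂ) : ℂ := ∑ i ∈ Finset.range (k + 1), w ^ ((k : ℤ) - 2 * i)

theorem chi_zero (w : ℂ) : chi 0 w = 1 := by
  simp [chi]

theorem chi_one {w : ℂ} : chi 1 w = w ^ (1 : ℤ) + w ^ (-1 : ℤ) := by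
  unfold chi
  rw [Finset.sum_range_succ, Finset.sum_range_one]
  norm_num

theorem chi_succ (k : ℕ) (w : ℂ) :
    chi (k + 2) w = chi k w + (w ^ ((k + 2 : ℕ) : ℤ) + w ^ (-((k + 2 : ℕ) : ℤ))) := by
  unfold chi
  rw [Finset.sum_range_succ, Finset.sum_range_succ']
  have h1 : ∀ i ∈ Finset.range (k + 1), w ^ (((k + 2 : ℕ) : ℤ) - 2 * ((i + 1 : ℕ) : ℤ)) =
      w ^ ((k : ℤ) - 2 * i) := by
    intro i _
    congr 1
    push_cast
    ring
  rw [Finset.sum_congr rfl h1]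
  have h2 : ((k + 2 : ℕ) : ℤ) - 2 * ((0 : ℕ) : ℤ) = ((k + 2 : ℕ) : ℤ) := by push_cast; ring
  have h3 : ((k + 2 : ℕ) : ℤ) - 2 * ((k + 2 : ℕ) : ℤ) = -((k + 2 : ℕ) : ℤ) := by push_cast; ring
  rw [h2, h3]
  ring

theorem inv_eq_conj {w : ℂ} (hw : ‖w‖ = 1) : w⁻¹ = conj w := by
  rw [Complex.inv_def, Complex.normSq_eq_norm_sq, hw]
  simp

theorem zpow_neg_conj {w : ℂ} (hw : ‖w‖ = 1) (k : ℤ) : w ^ (-k) = conj (w ^ k) := by
  rw [zpow_neg, ← inv_zpow, inv_eq_conj hw, map_zpow₀]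

theorem add_conj_mul_re (a z : ℂ) : ((a + conj a) * z).re = 2 * a.re * z.re := by
  simp only [Complex.mul_re, Complex.add_re, Complex.conj_re, Complex.add_im, Complex.conj_im]
  ring

/-- the parameter at `p`, `1` for `p ∈ S` -/
noncomputable def ww (S : Finset ℕ) (α : ℕ → ℂ) (p : Nat.Primes) : ℂ :=
  if (p : ℕ) ∈ S then 1 else α p

/-- `p^{-iτ}` -/
noncomputable def pz (τ : ℝ) (p : Nat.Primes) : ℂ := ((p : ℕ) : ℂ) ^ (-(τ * I))

theorem norm_pz (τ : ℝ) (p : Nat.Primes) : ‖pz τ p‖ = 1 := by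
  unfold pz
  rw [norm_prime_cpow]
  simp

theorem pz_zero (p : Nat.Primes) : pz 0 p = 1 := by simp [pz]

theorem pz_add (τ τ' : ℝ) (p : Nat.Primes) : pz (τ + τ') p = pz τ p * pz τ' p := by
  unfold pz
  have hp : ((p : ℕ) : ℂ) ≠ 0 := by exact_mod_cast p.2.ne_zero
  rw [← Complex.cpow_add _ _ hp]
  congr 1
  push_cast
  ring

theorem pz_neg (τ : ℝ) (p : Nat.Primes) : pz (-τ) p = conj (pz τ p) := by
  rw [← inv_eq_conj (norm_pz τ p)]
  have h := pz_add (-τ) τ p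
  rw [neg_add_cancel, pz_zero] at h
  exact eq_inv_of_mul_eq_one_left h.symm

variable {S : Finset ℕ} {α : ℕ → ℂ}

theorem norm_ww (hα : ∀ p : ℕ, p.Prime → p ∉ S → ‖α p‖ = 1) (p : Nat.Primes) :
    ‖ww S α p‖ = 1 := by
  unfold ww
  split_ifs with h
  · simp
  · exact hα p p.2 h

/-- the size of the L-function of `Sym^k` and the mean value of its character -/
theorem sym_size (hα : ∀ p : ℕ, p.Prime → p ∉ S → ‖α p‖ = 1) (k : ℕ) (τ : ℝ) :
    (∀ᶠ ε : ℝ in 𝓝[>] 0, symL S α k (1 + τ * I + ε) ≠ 0) ∧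
    ∀ x : ℝ, Lim cN (fun p => (chi k (ww S α p) * pz τ p).re) x ↔
      Tendsto (size S α k τ) (𝓝[>] 0) (𝓝 x) := by
  classical
  have hS : {p : Nat.Primes | (p : ℕ) ∈ S}.Finite :=
    Set.Finite.preimage (Subtype.val_injective.injOn) S.finite_toSet
  have h := Coh.size (N := cN) hcN lim_one (ι := Fin (k + 1)) 0 τ hS.toFinset
    (fun p j => ww S α p ^ ((k : ℤ) - 2 * (j : ℕ)))
    (fun p _ j => by
      rw [norm_zpow, norm_ww hα, one_zpow, Real.rpow_zero])
    (fun p => if (p : ℕ) ∈ S then 1 else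
      ∏ j : Fin (k + 1), (1 - Polynomial.C (ww S α p ^ ((k : ℤ) - 2 * (j : ℕ))) * Polynomial.X))
    (fun p hp => by
      have : (p : ℕ) ∈ S := by simpa using hp
      rw [if_pos this]
      simp)
    (fun p hp z => by
      have : (p : ℕ) ∉ S := by simpa using hp
      rw [if_neg this, Polynomial.eval_prod]
      simp)
    (symL S α k)
    (fun s _ => by
      unfold symL
      refine tprod_congr fun p => ?_
      by_cases hp : (p : ℕ) ∈ S
      · rw [if_pos hp, if_pos hp]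
        simp
      · rw [if_neg hp, if_neg hp, Polynomial.eval_prod, Finset.prod_inv_distrib,
          Finset.prod_range]
        congr 1
        refine Finset.prod_congr rfl fun j _ => ?_
        simp only [Polynomial.eval_sub, Polynomial.eval_one, Polynomial.eval_mul,
          Polynomial.eval_C, Polynomial.eval_X, ww, if_neg hp]
        rfl)
  have e0 : ∀ ε : ℝ, (((0 : ℝ) : ℂ) + 1 + τ * I + ε) = 1 + τ * I + ε := fun ε => by
    push_cast
    ring
  simp only [e0] at h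
  refine ⟨h.1, fun x => ?_⟩
  have h2 := h.2 (fun p => (chi k (ww S α p) * pz τ p).re) (fun p _ => by
    have : chi k (ww S α p) = ∑ j : Fin (k + 1), ww S α p ^ ((k : ℤ) - 2 * (j : ℕ)) := by
      unfold chi
      rw [Finset.sum_range]
    rw [this]
    simp only [Complex.ofReal_zero, neg_zero, Complex.cpow_zero, mul_one]
    rfl) x
  rw [h2]
  rfl

/-- the real number `2 Re(α_p^k) Re(p^{-iτ})` -/
noncomputable def ff (S : Finset ℕ) (α : ℕ → ℂ) (k : ℤ) (τ : ℝ) (p : Nat.Primes) : ℝ :=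
  2 * (ww S α p ^ k).re * (pz τ p).re

theorem chi_ff_succ (hα : ∀ p : ℕ, p.Prime → p ∉ S → ‖α p‖ = 1) (k : ℕ) (τ : ℝ)
    (p : Nat.Primes) : ff S α ((k + 2 : ℕ) : ℤ) τ p =
      (chi (k + 2) (ww S α p) * pz τ p).re - (chi k (ww S α p) * pz τ p).re := by
  rw [chi_succ, add_mul, Complex.add_re, add_sub_cancel_left, zpow_neg_conj (norm_ww hα p),
    add_conj_mul_re]
  rfl

theorem chi_ff_one (hα : ∀ p : ℕ, p.Prime → p ∉ S → ‖α p‖ = 1) (τ : ℝ)
    (p : Nat.Primes) : ff S α 1 τ p = (chi 1 (ww S α p) * pz τ p).re := by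
  rw [chi_one, zpow_neg_conj (norm_ww hα p), add_conj_mul_re]
  rfl

theorem ff_zero (τ : ℝ) (p : Nat.Primes) : ff S α 0 τ p = 2 * (pz τ p).re := by
  unfold ff
  rw [zpow_zero]
  simp

theorem ff_neg (hα : ∀ p : ℕ, p.Prime → p ∉ S → ‖α p‖ = 1) (k : ℤ) (τ : ℝ) (p : Nat.Primes) :
    ff S α (-k) τ p = ff S α k τ p := by
  unfold ff
  rw [zpow_neg_conj (norm_ww hα p), Complex.conj_re]

theorem ff_neg' (k : ℤ) (τ : ℝ) (p : Nat.Primes) : ff S α k (-τ) p = ff S α k τ p := by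
  unfold ff
  rw [pz_neg, Complex.conj_re]

/-- positivity -/
theorem ff_pos (hα : ∀ p : ℕ, p.Prime → p ∉ S → ‖α p‖ = 1) {T : AddSubgroup ℝ}
    (s : Finset (ℤ × T)) (u : ℤ × T → ℝ) (p : Nat.Primes) :
    0 ≤ ∑ x ∈ s, ∑ y ∈ s, u x * u y * ff S α (x.1 - y.1) ((x.2 - y.2 : T) : ℝ) p := by
  have hw := norm_ww hα p
  have hw0 : ww S α p ≠ 0 := by
    intro h
    rw [h, norm_zero] at hw
    exact zero_ne_one hw
  set w := ww S α p with hwdef
  have key : ∀ (x y : ℤ × T), ff S α (x.1 - y.1) ((x.2 - y.2 : T) : ℝ) p =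
      ((w ^ x.1 * pz x.2 p) * conj (w ^ y.1 * pz y.2 p)).re +
      ((w ^ x.1 * conj (pz x.2 p)) * conj (w ^ y.1 * conj (pz y.2 p))).re := by
    intro x y
    have h1 : w ^ (x.1 - y.1) = w ^ x.1 * conj (w ^ y.1) := by
      rw [sub_eq_add_neg, zpow_add₀ hw0, zpow_neg_conj hw]
    have h2 : pz ((x.2 - y.2 : T) : ℝ) p = pz x.2 p * conj (pz y.2 p) := by
      rw [AddSubgroup.coe_sub, sub_eq_add_neg, pz_add, pz_neg]
    unfold ff
    rw [← hwdef, h1, h2]
    generalize w ^ x.1 = a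
    generalize w ^ y.1 = b
    generalize pz x.2 p = c
    generalize pz y.2 p = d
    simp only [Complex.mul_re, Complex.mul_im, Complex.conj_re, Complex.conj_im, map_mul,
      Complex.conj_conj]
    ring
  have hsq : ∀ g : ℤ × T → ℂ, ∑ x ∈ s, ∑ y ∈ s, u x * u y * (g x * conj (g y)).re =
      Complex.normSq (∑ x ∈ s, (u x : ℂ) * g x) := by
    intro g
    have h1 : ((Complex.normSq (∑ x ∈ s, (u x : ℂ) * g x) : ℝ) : ℂ) =
        ∑ x ∈ s, ∑ y ∈ s, (u x * u y : ℂ) * (g x * conj (g y)) := by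
      rw [← Complex.mul_conj, map_sum, Finset.sum_mul_sum]
      refine Finset.sum_congr rfl fun x _ => Finset.sum_congr rfl fun y _ => ?_
      rw [map_mul, Complex.conj_ofReal]
      ring
    have h2 := congrArg Complex.re h1
    rw [Complex.ofReal_re] at h2
    rw [h2, Complex.re_sum]
    refine Finset.sum_congr rfl fun x _ => ?_
    rw [Complex.re_sum]
    refine Finset.sum_congr rfl fun y _ => ?_
    rw [← Complex.ofReal_mul, Complex.re_ofReal_mul]
  have h3 : ∑ x ∈ s, ∑ y ∈ s, u x * u y * ff S α (x.1 - y.1) ((x.2 - y.2 : T) : ℝ) p =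
      Complex.normSq (∑ x ∈ s, (u x : ℂ) * (w ^ x.1 * pz x.2 p)) +
      Complex.normSq (∑ x ∈ s, (u x : ℂ) * (w ^ x.1 * conj (pz x.2 p))) := by
    rw [← hsq, ← hsq, ← Finset.sum_add_distrib]
    refine Finset.sum_congr rfl fun x _ => ?_
    rw [← Finset.sum_add_distrib]
    refine Finset.sum_congr rfl fun y _ => ?_
    rw [key, mul_add]
  rw [h3]
  exact add_nonneg (Complex.normSq_nonneg _) (Complex.normSq_nonneg _)

end Pool.Agent.V8H32.SymP
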