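import Pool.Agent.V8H32.SymP.Base

/-! Symmetric power L-functions on the line: the dichotomy. -/

set_option autoImplicit false

namespace Pool.Agent.V8H32.SymP

open Complex Filter Topology ComplexConjugate
open Pool.Agent.H341R2 Pool.Agent.W540.BE Pool.Agent.V8H32.Coh Pool.Agent.H235R3.PT

variable {S : Finset ℕ} {α : ℕ → ℂ}

/-- the Fourier coefficients: `n` are the orders -/
noncomputable def cc (n : ℕ → ℝ → ℝ) (k : ℕ) (τ : ℝ) : ℝ :=
  match k with
  | 0 => if τ = 0 then 2 else 0
  | 1 => n 1 τ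
  | k + 2 => n (k + 2) τ - (if k = 0 then (if τ = 0 then 1 else 0) else n k τ)

theorem lim_ff (hα : ∀ p : ℕ, p.Prime → p ∉ S → ‖α p‖ = 1) {n : ℕ → ℝ → ℝ} {τ : ℝ}
    (hn : ∀ k : ℕ, 1 ≤ k → Lim cN (fun p => (chi k (ww S α p) * pz τ p).re) (n k τ)) (k : ℕ) :
    Lim cN (ff S α k τ) (cc n k τ) := by
  have h0 : Lim cN (fun p => (chi 0 (ww S α p) * pz τ p).re) (if τ = 0 then 1 else 0) := by
    split_ifs with h
    · refine lim_one.congr fun p => ?_
      rw [chi_zero, one_mul, h, pz_zero, Complex.one_re]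
    · refine (lim_cos h).congr fun p => ?_
      rw [chi_zero, one_mul]
      rfl
  match k with
  | 0 =>
    have h1 := h0.const_mul 2
    have h2 : (2 : ℝ) * (if τ = 0 then 1 else 0) = cc n 0 τ := by
      unfold cc
      split_ifs <;> norm_num
    rw [h2] at h1
    refine h1.congr fun p => ?_
    rw [chi_zero, one_mul]
    exact (ff_zero τ p).symm
  | 1 =>
    refine (hn 1 le_rfl).congr fun p => ?_
    exact (chi_ff_one hα τ p).symm
  | k + 2 =>
    have h1 := hn (k + 2) (by omega)
    have h2 : Lim cN (fun p => (chi k (ww S α p) * pz τ p).re)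
        (if k = 0 then (if τ = 0 then 1 else 0) else n k τ) := by
      split_ifs with h h'
      · subst h
        rw [if_pos h'] at h0
        exact h0
      · subst h
        rw [if_neg h'] at h0
        exact h0
      · exact hn k (by omega)
    exact (h1.sub hcN h2).congr fun p => (chi_ff_succ hα k τ p).symm

/-- **The dichotomy.** -/
theorem core (hα : ∀ p : ℕ, p.Prime → p ∉ S → ‖α p‖ = 1) (T : AddSubgroup ℝ) (n : ℕ → ℝ → ℝ)
    (hint : ∀ k : ℕ, 1 ≤ k → ∀ τ ∈ T, IsInt (n k τ))
    (hn : ∀ k : ℕ, 1 ≤ k → ∀ τ ∈ T, Lim cN (fun p => (chi k (ww S α p) * pz τ p).re) (n k τ))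
    (h1 : n 1 0 = 0) (h2 : n 2 0 = 0) (h4 : n 4 0 = 0) :
    ((∀ k : ℕ, 1 ≤ k → ∀ τ ∈ T, n k τ = 0) ∧
      ∀ k : ℕ, Lim cN (ff S α k 0) (if k = 0 then 2 else if k = 2 then -1 else 0)) ∨
    ∃ M : ℕ, 3 ≤ M ∧ n M 0 = n (M - 2) 0 + 2 ∧
      (∀ k : ℕ, 1 ≤ k → ∀ τ ∈ T, n (k + M + 2) τ - n (k + M) τ = n (k + 2) τ - n k τ) ∧
      Lim cN (ff S α M 0) 2 := by
  set φ : ℤ × T → ℝ := fun x => cc n x.1.natAbs x.2 with hφ
  have hlim : ∀ x : ℤ × T, Lim cN (ff S α x.1 x.2) (φ x) := by
    rintro ⟨k, τ⟩
    have h3 := lim_ff (τ := τ) hα (fun k hk => hn k hk τ τ.2) k.natAbs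
    refine h3.congr fun p => ?_
    rcases Int.natAbs_eq k with h5 | h5
    · rw [← h5]
    · conv_rhs => rw [h5]
      rw [ff_neg hα]
  have hpd : PD φ := by
    constructor
    · rintro ⟨k, τ⟩
      refine Lim.unique (hlim _) ((hlim (k, τ)).congr fun p => ?_)
      change ff S α k τ p = ff S α (-k) ((-τ : T) : ℝ) p
      rw [ff_neg hα, AddSubgroup.coe_neg, ff_neg']
    · intro s u
      have h3 : Lim cN (fun p => ∑ x ∈ s, ∑ y ∈ s,
          u x * u y * ff S α (x.1 - y.1) ((x.2 - y.2 : T) : ℝ) p)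
          (∑ x ∈ s, ∑ y ∈ s, u x * u y * φ (x - y)) :=
        Lim.sum hcN s fun x _ => Lim.sum hcN s fun y _ => (hlim (x - y)).const_mul _
      exact h3.nonneg fun p => ff_pos hα s u p
  have hφint : ∀ x, IsInt (φ x) := by
    rintro ⟨k, τ⟩
    simp only [hφ]
    rcases h5 : k.natAbs with _ | _ | m
    · unfold cc
      simp only
      split_ifs
      · exact ⟨2, by norm_num⟩
      · exact ⟨0, by norm_num⟩
    · exact hint 1 le_rfl τ τ.2
    · unfold cc
      simp only
      refine (hint (m + 2) (by omega) τ τ.2).sub ?_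
      split_ifs with h h'
      · exact ⟨1, by norm_num⟩
      · exact ⟨0, by norm_num⟩
      · exact hint m (by omega) τ τ.2
  have htf : ∀ (m : ℕ) (x : T), m ≠ 0 → m • x = 0 → x = 0 := by
    intro m x hm hx
    have h3 : m • (x : ℝ) = 0 := by
      rw [← AddSubgroup.coe_nsmul, hx, AddSubgroup.coe_zero]
    rw [nsmul_eq_mul, mul_eq_zero] at h3
    rcases h3 with h3 | h3
    · exact absurd (by exact_mod_cast h3) hm
    · exact Subtype.ext h3
  have hzero : ∀ t : T, ((t : ℝ) = 0 ↔ t = 0) := fun t =>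
    ⟨fun h => Subtype.ext h, fun h => by rw [h]; rfl⟩
  rcases dich htf hpd hφint (by simp [hφ, cc]) (by
      intro k t
      simp only [hφ, Int.natAbs_neg]) (by
      intro t ht
      simp only [hφ, Int.natAbs_zero, cc]
      rw [if_neg (fun h => ht ((hzero t).1 h))]) (by
      simp only [hφ]
      change n 2 0 - (if (0 : ℕ) = 0 then (if ((0 : T) : ℝ) = 0 then (1 : ℝ) else 0) else n 0 _) = -1
      rw [if_pos rfl, if_pos (by simp), h2]
      norm_num) (by
      simp only [hφ]
      change n 4 0 - (if (2 : ℕ) = 0 then _ else n 2 0) = 0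
      rw [if_neg (by norm_num), h4, h2, sub_zero]) with h | ⟨M, hM, hM2⟩
  · left
    have hc : ∀ (k : ℕ) (τ : ℝ), τ ∈ T → (k ≠ 0 ∨ τ ≠ 0) → (k ≠ 2 ∨ τ ≠ 0) → cc n k τ = 0 := by
      intro k τ hτ ha hb
      have h5 := h ((k : ℤ), ⟨τ, hτ⟩) (by
        intro h6
        have h7 := congrArg Prod.fst h6
        have h8 := congrArg Prod.snd h6
        simp only [Prod.fst_zero, Nat.cast_eq_zero] at h7
        have h9 := congrArg Subtype.val h8
        simp only [Prod.snd_zero, AddSubgroup.coe_zero] at h9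
        rcases ha with ha | ha
        · exact ha h7
        · exact ha h9) (by
        intro h6
        have h7 := congrArg Prod.fst h6
        have h8 := congrArg Prod.snd h6
        have h7' : k = 2 := by
          have h10 : (k : ℤ) = 2 := h7
          exact_mod_cast h10
        have h9 : τ = 0 := congrArg Subtype.val h8
        rcases hb with hb | hb
        · exact hb h7'
        · exact hb h9) (by
        intro h6
        have h7 : (k : ℤ) = -2 := congrArg Prod.fst h6
        omega)
      exact h5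
    have hn0 : ∀ k : ℕ, 1 ≤ k → ∀ τ ∈ T, n k τ = 0 := by
      intro k
      induction k using Nat.strong_induction_on with
      | _ k ih =>
        intro hk τ hτ
        match k, hk with
        | 1, _ => exact hc 1 τ hτ (Or.inl one_ne_zero) (Or.inl (by norm_num))
        | 2, _ =>
          by_cases h5 : τ = 0
          · rw [h5]
            exact h2
          · have h6 : n 2 τ - (if (0 : ℕ) = 0 then (if τ = 0 then (1 : ℝ) else 0) else n 0 τ) = 0 :=
              hc 2 τ hτ (Or.inr h5) (Or.inr h5)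
            rw [if_pos rfl, if_neg h5, sub_zero] at h6
            exact h6
        | k + 3, _ =>
          have h6 : n (k + 3) τ - (if (k + 1 : ℕ) = 0 then (if τ = 0 then (1 : ℝ) else 0) else
              n (k + 1) τ) = 0 :=
            hc (k + 3) τ hτ (Or.inl (by omega)) (Or.inl (by omega))
          rw [if_neg (by omega), ih (k + 1) (by omega) (by omega) τ hτ, sub_zero] at h6
          exact h6
    refine ⟨hn0, fun k => ?_⟩
    have h5 := lim_ff hα (fun k hk => hn k hk 0 T.zero_mem) k
    have h6 : cc n k 0 = if k = 0 then 2 else if k = 2 then -1 else 0 := by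
      by_cases hk : k = 0
      · subst hk
        simp [cc]
      by_cases hk2 : k = 2
      · subst hk2
        change n 2 0 - (if (0 : ℕ) = 0 then (if (0 : ℝ) = 0 then (1 : ℝ) else 0) else n 0 _) = _
        rw [if_pos rfl, if_pos rfl, h2]
        norm_num
      rw [hc k 0 T.zero_mem (Or.inl hk) (Or.inl hk2), if_neg hk, if_neg hk2]
    rwa [h6] at h5
  · right
    have h5 : cc n M 0 = 2 := by
      have h6 := hM2
      simp only [hφ, Int.natAbs_natCast] at h6
      exact h6
    have h6 := lim_ff hα (fun k hk => hn k hk 0 T.zero_mem) M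
    rw [h5] at h6
    have h7 : 3 ≤ M := by
      by_contra hcon
      have h8 : M = 1 ∨ M = 2 := by omega
      rcases h8 with rfl | rfl
      · have : n 1 0 = 2 := h5
        rw [h1] at this
        norm_num at this
      · have : n 2 0 - (if (0 : ℕ) = 0 then (if (0 : ℝ) = 0 then (1 : ℝ) else 0) else n 0 0) = 2 :=
          h5
        rw [if_pos rfl, if_pos rfl, h2] at this
        norm_num at this
    refine ⟨M, h7, ?_, ?_, h6⟩
    swap
    · intro k hk τ hτ
      have h8 := periodic hpd (δ := ((M : ℤ), (0 : T))) (by rw [hM2]; simp [hφ, cc])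
        (((k + 2 : ℕ) : ℤ), (⟨τ, hτ⟩ : T))
      have h9 : (((k + 2 : ℕ) : ℤ) + (M : ℤ)).natAbs = k + M + 2 := by omega
      simp only [hφ, Prod.mk_add_mk, add_zero, Int.natAbs_natCast] at h8
      rw [h9] at h8
      have h10 : ∀ j : ℕ, 1 ≤ j → cc n (j + 2) τ = n (j + 2) τ - n j τ := by
        intro j hj
        change n (j + 2) τ - (if j = 0 then (if τ = 0 then (1 : ℝ) else 0) else n j τ) = _
        rw [if_neg (by omega)]
      rw [h10 (k + M) (by omega), h10 k hk] at h8
      exact h8
    obtain ⟨m, rfl⟩ : ∃ m, M = m + 3 := ⟨M - 3, by omega⟩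
    have h8 : n (m + 3) 0 - (if (m + 1 : ℕ) = 0 then (if (0 : ℝ) = 0 then (1 : ℝ) else 0) else
        n (m + 1) 0) = 2 := h5
    rw [if_neg (by omega)] at h8
    have h9 : m + 3 - 2 = m + 1 := by omega
    rw [h9]
    linarith

/-- finite type -/
theorem near (hα : ∀ p : ℕ, p.Prime → p ∉ S → ‖α p‖ = 1) {M : ℕ}
    (h : Lim cN (ff S α M 0) 2) : NearRootsOfUnity S α M := by
  classical
  intro δ hδ
  have h1 : Lim cN (fun p => 2 - ff S α M 0 p) 0 := by
    have := (lim_one.const_mul 2).sub hcN h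
    norm_num at this
    exact this
  have h2 : ∀ p : Nat.Primes, 2 - ff S α M 0 p = ‖ww S α p ^ M - 1‖ ^ 2 := by
    intro p
    have hw := norm_ww hα p
    unfold ff
    rw [pz_zero, Complex.one_re, mul_one, zpow_natCast]
    have h3 : Complex.normSq (ww S α p ^ M) = 1 := by
      rw [Complex.normSq_eq_norm_sq, norm_pow, hw]
      norm_num
    rw [← Complex.normSq_eq_norm_sq, Complex.normSq_sub, h3]
    simp
    ring
  have h3 := (h1.const_mul (1 / δ ^ 2))
  rw [mul_zero] at h3
  have h4 := h3.squeeze hcN (g := fun p : Nat.Primes =>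
      if (p : ℕ) ∉ S ∧ δ ≤ ‖α p ^ M - 1‖ then (1 : ℝ) else 0)
    (fun p => by split_ifs <;> norm_num) (fun p => by
      rw [h2]
      split_ifs with h5
      · have h6 : ww S α p = α p := by
          unfold ww
          rw [if_neg h5.1]
        rw [h6, one_div, inv_mul_eq_div, le_div_iff₀ (by positivity), one_mul]
        exact pow_le_pow_left₀ hδ.le h5.2 2
      · positivity)
  exact h4.lim

end Pool.Agent.V8H32.SymP
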