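import Mathlib

/-!
# Symmetric power L-functions on the line `Re s = 1`: definitions

`n = 1`: `π` is a cuspidal automorphic representation of `PGL_2` over `ℚ`, `S` a finite set of primes
containing the ramified ones, `A_p = (α_p, α_p⁻¹)` the Satake parameter at `p ∉ S`.
-/

set_option autoImplicit false

namespace Pool.Agent.V8H32.SymP

open Complex Filter Topology

/-- The Satake parameters `α_p, α_p⁻¹` of a unitary representation of `PGL_2(ℚ_p)`, `p ∉ S`: the Hecke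
eigenvalue `a_p = α_p + α_p⁻¹` is real. Some bound `|α_p|, |α_p⁻¹| ≤ p^θ` is known (`θ = 1/2` is
elementary, `θ = 7/64` is the theorem of Kim and Sarnak). -/
structure SatakeParameters (S : Finset ℕ) (α : ℕ → ℂ) (θ : ℝ) : Prop where
  ne : ∀ p : ℕ, p.Prime → p ∉ S → α p ≠ 0
  real : ∀ p : ℕ, p.Prime → p ∉ S → ∃ a : ℝ, α p + (α p)⁻¹ = a
  nonneg : 0 ≤ θ
  le : ∀ p : ℕ, p.Prime → p ∉ S → ‖α p‖ ≤ (p : ℝ) ^ θ
  le' : ∀ p : ℕ, p.Prime → p ∉ S → ‖(α p)⁻¹‖ ≤ (p : ℝ) ^ θ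

/-- `L_S(s, π, Sym^k) = ∏_{p ∉ S} ∏_{0 ≤ i ≤ k} (1 - α_p^{k - 2i} p^{-s})⁻¹` -/
noncomputable def symL (S : Finset ℕ) (α : ℕ → ℂ) (k : ℕ) (s : ℂ) : ℂ :=
  ∏' p : Nat.Primes, if (p : ℕ) ∈ S then 1 else
    ∏ i ∈ Finset.range (k + 1), (1 - α p ^ ((k : ℤ) - 2 * i) * ((p : ℕ) : ℂ) ^ (-s))⁻¹

/-- `L_S(s, π, Sym^k)` has a meromorphic continuation `U/V` to the half-plane `Re s > 1`, and it has no
poles on the real half-line `(1, ∞)`. -/
def RealPoleFree (S : Finset ℕ) (α : ℕ → ℂ) (k : ℕ) : Prop :=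
  ∃ (U V : ℂ → ℂ) (σ : ℝ), DifferentiableOn ℂ U {s | 1 < s.re} ∧
    DifferentiableOn ℂ V {s | 1 < s.re} ∧ (∀ t : ℝ, 1 < t → V t ≠ 0) ∧
    ∀ s : ℂ, σ < s.re → symL S α k s * V s = U s

/-- `L_S(s, π, Sym^k)` is holomorphic for `Re s > 1` and at `s = 1`, and different from `0` at
`s = 1`. For `k = 1, 2, 4` this is a theorem if `π` is not dihedral (Hecke, Jacquet-Shalika,
Gelbart-Jacquet, Kim). -/
def RegularAtOne (S : Finset ℕ) (α : ℕ → ℂ) (k : ℕ) : Prop :=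
  ∃ (Λ : ℂ → ℂ) (σ : ℝ), DifferentiableOn ℂ Λ {s | 1 < s.re} ∧ AnalyticAt ℂ Λ 1 ∧ Λ 1 ≠ 0 ∧
    ∀ s : ℂ, σ < s.re → Λ s = symL S α k s

/-- `log |L_S(1 + iτ + ε, π, Sym^k)| / log(1/ε)`; if `L_S(s, π, Sym^k)` has a meromorphic continuation
to a neighbourhood of `1 + iτ` with a pole of order `m` at `1 + iτ` (a zero of order `-m` if `m < 0`),
then this tends to `m` as `ε → 0+`. -/
noncomputable def size (S : Finset ℕ) (α : ℕ → ℂ) (k : ℕ) (τ ε : ℝ) : ℝ :=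
  Real.log ‖symL S α k (1 + τ * I + ε)‖ / Real.log (1 / ε)

/-- `Λ` is a meromorphic continuation of the function `L` on the half-plane `Re s > 1` to a
neighbourhood of the point `s₀` of the line `Re s = 1`. -/
def Continues (L Λ : ℂ → ℂ) (s₀ : ℂ) : Prop :=
  MeromorphicAt Λ s₀ ∧ ∀ᶠ s in 𝓝 s₀, 1 < s.re → Λ s = L s

/-- The mean value of a function of the primes, weighted with `p^{-1-ε}`. -/
noncomputable def mean (f : ℕ → ℝ) (ε : ℝ) : ℝ :=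
  (∑' p : Nat.Primes, f p * (p : ℝ) ^ (-(1 + ε))) / ∑' p : Nat.Primes, (p : ℝ) ^ (-(1 + ε))

open Classical in
/-- The Sato-Tate law: for every continuous function `f` the mean value over the primes `p ∉ S` of
`f(α_p + α_p⁻¹)` is `(2/π) ∫_0^π f(2 cos θ) sin² θ dθ`. -/
def SatoTate (S : Finset ℕ) (α : ℕ → ℂ) : Prop :=
  ∀ f : ℝ → ℝ, Continuous f →
    Tendsto (mean fun p => if p ∈ S then 0 else f (α p + (α p)⁻¹).re) (𝓝[>] 0)
      (𝓝 (2 / Real.pi * ∫ θ in (0 : ℝ)..Real.pi, f (2 * Real.cos θ) * Real.sin θ ^ 2))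

open Classical in
/-- `α_p^M` tends to `1` in density: for every `δ > 0` the set of the primes `p ∉ S` with
`|α_p^M - 1| ≥ δ` has density `0`. -/
def NearRootsOfUnity (S : Finset ℕ) (α : ℕ → ℂ) (M : ℕ) : Prop :=
  ∀ δ : ℝ, 0 < δ →
    Tendsto (mean fun p => if p ∉ S ∧ δ ≤ ‖α p ^ M - 1‖ then 1 else 0) (𝓝[>] 0) (𝓝 0)

end Pool.Agent.V8H32.SymP
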